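import Pool.Agent.Helper842_Wye.Count

set_option autoImplicit false

namespace Pool.Agent.Helper842.Wye

open SimpleGraph Finset

instance : DecidableRel pathFive.Adj := fun a b => by unfold pathFive; infer_instance
instance : DecidableRel starFive.Adj := fun a b => by unfold starFive; infer_instance
instance : DecidableRel wyeFive.Adj := fun a b => by unfold wyeFive; infer_instance

/-- candidates for automorphisms -/
def autSet (H : SimpleGraph (Fin 5)) [DecidableRel H.Adj] : Finset (Fin 5 → Fin 5) :=
  univ.filter (fun f => Function.Injective f ∧ ∀ a b, H.Adj a b ↔ H.Adj (f a) (f b))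

theorem card_aut (H : SimpleGraph (Fin 5)) [DecidableRel H.Adj] :
    Nat.card (H ≃g H) = (autSet H).card := by
  have hb : Function.Bijective (fun f : H ≃g H => (⟨f, by
      unfold autSet
      rw [Finset.mem_filter]
      exact ⟨Finset.mem_univ _, f.injective, fun a b => f.map_adj_iff.symm⟩⟩ : autSet H)) := by
    constructor
    · intro f g hfg
      exact DFunLike.coe_injective (congrArg Subtype.val hfg)
    · rintro ⟨f, hf⟩
      have hf' := hf
      unfold autSet at hf'
      rw [Finset.mem_filter] at hf'
      obtain ⟨-, h1, h2⟩ := hf'
      have hbij : Function.Bijective f := Finite.injective_iff_bijective.1 h1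
      exact ⟨⟨Equiv.ofBijective f hbij, fun {a b} => (h2 a b).symm⟩, rfl⟩
  rw [Nat.card_eq_of_bijective _ hb, Nat.card_eq_fintype_card, Fintype.card_coe]

set_option maxRecDepth 100000 in
theorem aut_path : Nat.card (pathFive ≃g pathFive) = 2 := by
  rw [card_aut]
  decide

set_option maxRecDepth 100000 in
theorem aut_star : Nat.card (starFive ≃g starFive) = 24 := by
  rw [card_aut]
  decide

set_option maxRecDepth 100000 in
theorem aut_wye : Nat.card (wyeFive ≃g wyeFive) = 2 := by
  rw [card_aut]
  decide

end Pool.Agent.Helper842.Wye
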