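import Pool.Agent.Helper842_Wye.Defs

set_option autoImplicit false

namespace Pool.Agent.Helper842.Wye

open SimpleGraph Finset

variable {V W : Type*}

theorem lcc_eq [Fintype V] [Fintype W] (G : SimpleGraph V) (H : SimpleGraph W) :
    G.labelledCopyCount H = Nat.card (Copy H G) := by
  classical
  unfold labelledCopyCount
  rw [Fintype.card_eq_nat_card]

/-- labelled copies = unlabelled copies times automorphisms -/
theorem labelled_eq [Fintype V] [Fintype W] (G : SimpleGraph V) (H : SimpleGraph W) :
    G.labelledCopyCount H = G.copyCount H * Nat.card (H ≃g H) := by
  classical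
  unfold labelledCopyCount copyCount
  rw [← Finset.card_univ (α := Copy H G)]
  rw [Finset.card_eq_sum_card_fiberwise (f := Copy.toSubgraph)
    (t := ({G' : G.Subgraph | Nonempty (H ≃g G'.coe)} : Finset G.Subgraph))]
  · rw [Finset.sum_const_nat (m := Nat.card (H ≃g H))]
    intro G' hG'
    rw [Finset.mem_filter] at hG'
    obtain ⟨-, ⟨e⟩⟩ := hG'
    let F : (H ≃g H) → {f : Copy H G // f.toSubgraph = G'} := fun σ =>
      ⟨⟨G'.hom.comp (e.toHom.comp σ.toHom), by
        have h1 : Function.Injective G'.hom := Subgraph.hom_injective
        exact h1.comp (e.injective.comp σ.injective)⟩, by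
        have h2 : (⊤ : H.Subgraph).map σ.toHom = ⊤ := by
          ext a b
          · simp only [Subgraph.map_verts, Subgraph.verts_top, Set.image_univ]
            constructor
            · intro _; trivial
            · intro _; exact ⟨σ.symm a, by simp⟩
          · simp only [Subgraph.map_adj, Relation.map_apply, Subgraph.top_adj]
            constructor
            · rintro ⟨c, d, hcd, rfl, rfl⟩
              exact σ.map_adj_iff.2 hcd
            · intro hab
              refine ⟨σ.symm a, σ.symm b, ?_, by simp, by simp⟩
              exact σ.symm.map_adj_iff.2 hab
        have h3 : (⊤ : H.Subgraph).map e.toHom = ⊤ := by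
          ext a b
          · simp only [Subgraph.map_verts, Subgraph.verts_top, Set.image_univ]
            constructor
            · intro _; trivial
            · intro _; exact ⟨e.symm a, by simp⟩
          · simp only [Subgraph.map_adj, Relation.map_apply, Subgraph.top_adj]
            constructor
            · rintro ⟨c, d, hcd, rfl, rfl⟩
              exact e.map_adj_iff.2 hcd
            · intro hab
              refine ⟨e.symm a, e.symm b, ?_, by simp, by simp⟩
              exact e.symm.map_adj_iff.2 hab
        show (⊤ : H.Subgraph).map (G'.hom.comp (e.toHom.comp σ.toHom)) = G'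
        rw [Subgraph.map_comp, Subgraph.map_comp, h2, h3]
        exact Subgraph.map_hom_top G'⟩
    have hF : Function.Bijective F := by
      constructor
      · intro σ τ hst
        ext a
        have h1 := congrArg (fun f => (f.1 : W → V) a) hst
        have h2 : G'.hom (e (σ a)) = G'.hom (e (τ a)) := h1
        exact e.injective (Subgraph.hom_injective h2)
      · rintro ⟨f, hf⟩
        subst hf
        refine ⟨f.isoToSubgraph.trans e.symm, ?_⟩
        apply Subtype.ext
        apply Copy.ext
        intro a
        show (f.toSubgraph.hom (e (e.symm (f.isoToSubgraph a)))) = f a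
        rw [RelIso.apply_symm_apply]
        rfl
    have h4 := Nat.card_eq_of_bijective F hF
    rw [h4, Nat.card_eq_fintype_card, Fintype.card_subtype]
  · intro f _
    simp only [Finset.coe_filter, Finset.mem_univ, true_and, Set.mem_ofPred_eq]
    exact ⟨f.isoToSubgraph⟩

end Pool.Agent.Helper842.Wye
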