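import Mathlib

set_option autoImplicit false

namespace Pool.Agent.Helper842.Wye

open SimpleGraph

/-- The path on five vertices. -/
def pathFive : SimpleGraph (Fin 5) :=
  SimpleGraph.fromEdgeSet {s(0, 1), s(1, 2), s(2, 3), s(3, 4)}

/-- The star `K_{1,4}`. -/
def starFive : SimpleGraph (Fin 5) :=
  SimpleGraph.fromEdgeSet {s(0, 1), s(0, 2), s(0, 3), s(0, 4)}

/-- The Y-shaped tree: `0` has degree three, `3` has degree two, and they are adjacent. -/
def wyeFive : SimpleGraph (Fin 5) :=
  SimpleGraph.fromEdgeSet {s(0, 1), s(0, 2), s(0, 3), s(3, 4)}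

end Pool.Agent.Helper842.Wye
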