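import Pool.Agent.Helper842_Wye.Lab
import Pool.Agent.Helper842_Wye.Aut

set_option autoImplicit false

namespace Pool.Agent.Helper842.Wye

open SimpleGraph Finset

variable {V : Type*} [Fintype V]

theorem card_prod_filter {A B : Type*} [Fintype A] [Fintype B] (p : A × B → Prop)
    [DecidablePred p] :
    ((univ : Finset (A × B)).filter p).card =
      ∑ a, ((univ : Finset B).filter (fun b => p (a, b))).card := by
  simp only [Finset.card_filter]
  rw [Fintype.sum_prod_type]

theorem card_and (P : Prop) [Decidable P] (Q : V → Prop) [DecidablePred Q] :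
    ((univ : Finset V).filter (fun x => P ∧ Q x)).card =
      if P then ((univ : Finset V).filter Q).card else 0 := by
  by_cases h : P <;> simp [h]

theorem sum_and (P : Prop) [Decidable P] (Q : V → Prop) [DecidablePred Q] (c : V → ℕ) :
    (∑ x, if P ∧ Q x then c x else 0) = if P then ∑ x ∈ univ.filter Q, c x else 0 := by
  by_cases h : P
  · simp [h, Finset.sum_filter]
  · simp [h]

variable [DecidableEq V] (T : SimpleGraph V) [DecidableRel T.Adj]

theorem card_two {v a b : V} (ha : T.Adj v a) (hb : T.Adj v b) (hba : b ≠ a) :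
    (univ.filter (fun x => T.Adj v x ∧ x ≠ a ∧ x ≠ b)).card = T.degree v - 2 := by
  have e : univ.filter (fun x => T.Adj v x ∧ x ≠ a ∧ x ≠ b) =
      ((T.neighborFinset v).erase a).erase b := by
    ext x
    simp only [Finset.mem_filter, Finset.mem_univ, true_and, Finset.mem_erase, mem_neighborFinset]
    tauto
  rw [e, Finset.card_erase_of_mem (by simp [hb, hba]),
    Finset.card_erase_of_mem (by simpa using ha), T.card_neighborFinset_eq_degree]
  omega

theorem card_three {v a b c : V} (ha : T.Adj v a) (hb : T.Adj v b) (hba : b ≠ a)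
    (hc : T.Adj v c) (hca : c ≠ a) (hcb : c ≠ b) :
    (univ.filter (fun x => T.Adj v x ∧ x ≠ a ∧ x ≠ b ∧ x ≠ c)).card = T.degree v - 3 := by
  have e : univ.filter (fun x => T.Adj v x ∧ x ≠ a ∧ x ≠ b ∧ x ≠ c) =
      (((T.neighborFinset v).erase a).erase b).erase c := by
    ext x
    simp only [Finset.mem_filter, Finset.mem_univ, true_and, Finset.mem_erase, mem_neighborFinset]
    tauto
  rw [e, Finset.card_erase_of_mem (by simp [hc, hca, hcb]),
    Finset.card_erase_of_mem (by simp [hb, hba]),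
    Finset.card_erase_of_mem (by simpa using ha), T.card_neighborFinset_eq_degree]
  omega

theorem star_sum : (starTup T).card =
    ∑ v, T.degree v * (T.degree v - 1) * (T.degree v - 2) * (T.degree v - 3) := by
  unfold starTup
  rw [card_prod_filter]
  refine Finset.sum_congr rfl fun v _ => ?_
  rw [card_prod_filter]
  have h1 : ∀ a, ((univ : Finset (V × V × V)).filter (fun t =>
      ((T.Adj v a ∧ (T.Adj v t.1 ∧ t.1 ≠ a)) ∧ (T.Adj v t.2.1 ∧ t.2.1 ≠ a ∧ t.2.1 ≠ t.1)) ∧
      (T.Adj v t.2.2 ∧ t.2.2 ≠ a ∧ t.2.2 ≠ t.1 ∧ t.2.2 ≠ t.2.1))).card =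
      if T.Adj v a then (T.degree v - 1) * (T.degree v - 2) * (T.degree v - 3) else 0 := by
    intro a
    rw [card_prod_filter]
    have h2 : ∀ b, ((univ : Finset (V × V)).filter (fun t =>
      ((T.Adj v a ∧ (T.Adj v b ∧ b ≠ a)) ∧ (T.Adj v t.1 ∧ t.1 ≠ a ∧ t.1 ≠ b)) ∧
      (T.Adj v t.2 ∧ t.2 ≠ a ∧ t.2 ≠ b ∧ t.2 ≠ t.1))).card =
      if T.Adj v a ∧ (T.Adj v b ∧ b ≠ a) then (T.degree v - 2) * (T.degree v - 3) else 0 := by
      intro b
      rw [card_prod_filter]
      have h3 : ∀ x, ((univ : Finset V).filter (fun y =>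
        ((T.Adj v a ∧ (T.Adj v b ∧ b ≠ a)) ∧ (T.Adj v x ∧ x ≠ a ∧ x ≠ b)) ∧
        (T.Adj v y ∧ y ≠ a ∧ y ≠ b ∧ y ≠ x))).card =
        if (T.Adj v a ∧ (T.Adj v b ∧ b ≠ a)) ∧ (T.Adj v x ∧ x ≠ a ∧ x ≠ b) then
          T.degree v - 3 else 0 := by
        intro x
        rw [card_and]
        split_ifs with h
        · exact card_three T h.1.1 h.1.2.1 h.1.2.2 h.2.1 h.2.2.1 h.2.2.2
        · rfl
      rw [Finset.sum_congr rfl fun x _ => h3 x, sum_and]
      split_ifs with h
      · rw [Finset.sum_const, card_two T h.1 h.2.1 h.2.2, smul_eq_mul]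
      · rfl
    rw [Finset.sum_congr rfl fun x _ => h2 x, sum_and]
    split_ifs with h
    · rw [Finset.sum_const, card_nbr_erase T h, smul_eq_mul]
      ring
    · rfl
  rw [Finset.sum_congr rfl fun x _ => h1 x, ← Finset.sum_filter, Finset.sum_const, smul_eq_mul]
  have h4 : (univ.filter (fun a => T.Adj v a)).card = T.degree v := by
    rw [← T.card_neighborFinset_eq_degree]
    congr 1
    ext x
    simp
  rw [h4]
  ring

theorem path_sum : (pathTup T).card =
    ∑ v, ∑ a ∈ T.neighborFinset v, ∑ b ∈ (T.neighborFinset v).erase a,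
      (T.degree a - 1) * (T.degree b - 1) := by
  unfold pathTup
  rw [card_prod_filter]
  refine Finset.sum_congr rfl fun v _ => ?_
  rw [card_prod_filter]
  have h1 : ∀ a, ((univ : Finset (V × V × V)).filter (fun t =>
      ((T.Adj v a ∧ (T.Adj v t.1 ∧ t.1 ≠ a)) ∧ (T.Adj a t.2.1 ∧ t.2.1 ≠ v)) ∧
      (T.Adj t.1 t.2.2 ∧ t.2.2 ≠ v))).card =
      if T.Adj v a then ∑ b ∈ univ.filter (fun b => T.Adj v b ∧ b ≠ a),
        (T.degree a - 1) * (T.degree b - 1) else 0 := by
    intro a
    rw [card_prod_filter]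
    have h2 : ∀ b, ((univ : Finset (V × V)).filter (fun t =>
      ((T.Adj v a ∧ (T.Adj v b ∧ b ≠ a)) ∧ (T.Adj a t.1 ∧ t.1 ≠ v)) ∧
      (T.Adj b t.2 ∧ t.2 ≠ v))).card =
      if T.Adj v a ∧ (T.Adj v b ∧ b ≠ a) then (T.degree a - 1) * (T.degree b - 1) else 0 := by
      intro b
      rw [card_prod_filter]
      have h3 : ∀ x, ((univ : Finset V).filter (fun y =>
        ((T.Adj v a ∧ (T.Adj v b ∧ b ≠ a)) ∧ (T.Adj a x ∧ x ≠ v)) ∧
        (T.Adj b y ∧ y ≠ v))).card =
        if (T.Adj v a ∧ (T.Adj v b ∧ b ≠ a)) ∧ (T.Adj a x ∧ x ≠ v) then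
          T.degree b - 1 else 0 := by
        intro x
        rw [card_and]
        split_ifs with h
        · exact card_nbr_erase T h.1.2.1.symm
        · rfl
      rw [Finset.sum_congr rfl fun x _ => h3 x, sum_and]
      split_ifs with h
      · rw [Finset.sum_const, card_nbr_erase T h.1.symm, smul_eq_mul]
      · rfl
    rw [Finset.sum_congr rfl fun x _ => h2 x, sum_and]
  rw [Finset.sum_congr rfl fun x _ => h1 x, ← Finset.sum_filter]
  refine Finset.sum_congr ?_ fun a _ => Finset.sum_congr ?_ fun b _ => rfl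
  · ext x
    simp
  · ext x
    simp [and_comm]

theorem wye_sum : (wyeTup T).card =
    ∑ v, ∑ w ∈ T.neighborFinset v,
      (T.degree v - 1) * (T.degree v - 2) * (T.degree w - 1) := by
  unfold wyeTup
  rw [card_prod_filter]
  refine Finset.sum_congr rfl fun v _ => ?_
  rw [card_prod_filter]
  have h1 : ∀ w, ((univ : Finset (V × V × V)).filter (fun t =>
      ((T.Adj v w ∧ (T.Adj v t.1 ∧ t.1 ≠ w)) ∧ (T.Adj v t.2.1 ∧ t.2.1 ≠ w ∧ t.2.1 ≠ t.1)) ∧
      (T.Adj w t.2.2 ∧ t.2.2 ≠ v))).card =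
      if T.Adj v w then (T.degree v - 1) * (T.degree v - 2) * (T.degree w - 1) else 0 := by
    intro w
    rw [card_prod_filter]
    have h2 : ∀ a, ((univ : Finset (V × V)).filter (fun t =>
      ((T.Adj v w ∧ (T.Adj v a ∧ a ≠ w)) ∧ (T.Adj v t.1 ∧ t.1 ≠ w ∧ t.1 ≠ a)) ∧
      (T.Adj w t.2 ∧ t.2 ≠ v))).card =
      if T.Adj v w ∧ (T.Adj v a ∧ a ≠ w) then (T.degree v - 2) * (T.degree w - 1) else 0 := by
      intro a
      rw [card_prod_filter]
      have h3 : ∀ x, ((univ : Finset V).filter (fun y =>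
        ((T.Adj v w ∧ (T.Adj v a ∧ a ≠ w)) ∧ (T.Adj v x ∧ x ≠ w ∧ x ≠ a)) ∧
        (T.Adj w y ∧ y ≠ v))).card =
        if (T.Adj v w ∧ (T.Adj v a ∧ a ≠ w)) ∧ (T.Adj v x ∧ x ≠ w ∧ x ≠ a) then
          T.degree w - 1 else 0 := by
        intro x
        rw [card_and]
        split_ifs with h
        · exact card_nbr_erase T h.1.1.symm
        · rfl
      rw [Finset.sum_congr rfl fun x _ => h3 x, sum_and]
      split_ifs with h
      · rw [Finset.sum_const, card_two T h.1 h.2.1 h.2.2, smul_eq_mul]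
      · rfl
    rw [Finset.sum_congr rfl fun x _ => h2 x, sum_and]
    split_ifs with h
    · rw [Finset.sum_const, card_nbr_erase T h, smul_eq_mul]
      ring
    · rfl
  rw [Finset.sum_congr rfl fun x _ => h1 x, ← Finset.sum_filter]
  refine Finset.sum_congr ?_ fun a _ => rfl
  ext x
  simp

/-- twice the number of paths -/
theorem path_count (hT : T.IsAcyclic) : T.copyCount pathFive * 2 =
    ∑ v, ∑ a ∈ T.neighborFinset v, ∑ b ∈ (T.neighborFinset v).erase a,
      (T.degree a - 1) * (T.degree b - 1) := by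
  rw [← path_sum, ← labelled_path T hT, labelled_eq, aut_path]

theorem star_count : T.copyCount starFive * 24 =
    ∑ v, T.degree v * (T.degree v - 1) * (T.degree v - 2) * (T.degree v - 3) := by
  rw [← star_sum, ← labelled_star T, labelled_eq, aut_star]

theorem wye_count (hT : T.IsAcyclic) : T.copyCount wyeFive * 2 =
    ∑ v, ∑ w ∈ T.neighborFinset v,
      (T.degree v - 1) * (T.degree v - 2) * (T.degree w - 1) := by
  rw [← wye_sum, ← labelled_wye T hT, labelled_eq, aut_wye]

end Pool.Agent.Helper842.Wye
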