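import Pool.Agent.Helper842_Wye.ParTree
import Pool.Agent.Helper842_Wye.Sums

set_option autoImplicit false

namespace Pool.Agent.Helper842.Wye

open SimpleGraph Finset

/-- vertices of a block: `inl 0` on the spine, `inl 1` and `inl 2` with many leaves -/
abbrev Bl : Type := Fin 3 ⊕ (Bool × Fin 19)

/-- previous index -/
def pre {n : ℕ} (i : Fin (n + 1)) : Fin (n + 1) := ⟨i.1 - 1, by omega⟩

/-- next index -/
def nex {n : ℕ} (i : Fin (n + 1)) : Fin (n + 1) := ⟨min (i.1 + 1) n, by omega⟩

/-- the parent function -/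
def par (n : ℕ) : Fin (n + 1) × Bl → Fin (n + 1) × Bl
  | (i, Sum.inl 0) => (pre i, Sum.inl 0)
  | (i, Sum.inl 1) => (i, Sum.inl 0)
  | (i, Sum.inl 2) => (i, Sum.inl 1)
  | (i, Sum.inr (false, _)) => (i, Sum.inl 1)
  | (i, Sum.inr (true, _)) => (i, Sum.inl 2)

/-- the rank -/
def rk (n : ℕ) : Fin (n + 1) × Bl → ℕ
  | (i, Sum.inl 0) => 4 * i
  | (i, Sum.inl 1) => 4 * i + 1
  | (i, Sum.inl 2) => 4 * i + 2
  | (i, Sum.inr _) => 4 * i + 3

/-- the tree with `n + 1` blocks -/
def TT (n : ℕ) : SimpleGraph (Fin (n + 1) × Bl) := parGraph (par n)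

theorem TT_isTree (n : ℕ) : (TT n).IsTree := by
  refine parGraph_isTree (par n) (rk n) (0, Sum.inl 0) ?_ ?_
  · show (pre 0, Sum.inl 0) = ((0 : Fin (n + 1)), (Sum.inl 0 : Bl))
    rfl
  · rintro ⟨i, (t | ⟨c, l⟩)⟩ hv
    · fin_cases t
      · have hi : i ≠ 0 := fun h => hv (by rw [h]; rfl)
        have hi' : 0 < i.1 := Nat.pos_of_ne_zero fun h => hi (Fin.ext h)
        show 4 * (pre i).1 < 4 * i.1
        show 4 * (i.1 - 1) < 4 * i.1
        omega
      · show 4 * i.1 < 4 * i.1 + 1
        omega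
      · show 4 * i.1 + 1 < 4 * i.1 + 2
        omega
    · cases c
      · show 4 * i.1 + 1 < 4 * i.1 + 3
        omega
      · show 4 * i.1 + 2 < 4 * i.1 + 3
        omega

section

variable (n : ℕ)

noncomputable instance : DecidableRel (TT n).Adj := Classical.decRel _

theorem nb_leaf1 (i : Fin (n + 1)) (l : Fin 19) :
    (TT n).neighborFinset (i, Sum.inr (false, l)) = {(i, Sum.inl 1)} := by
  ext ⟨j, (t | ⟨c, m⟩)⟩
  · rw [mem_neighborFinset, TT, parGraph_adj, Finset.mem_singleton]
    fin_cases t <;> simp [par]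
  · rw [mem_neighborFinset, TT, parGraph_adj, Finset.mem_singleton]
    cases c <;> simp [par]

theorem nb_leaf2 (i : Fin (n + 1)) (l : Fin 19) :
    (TT n).neighborFinset (i, Sum.inr (true, l)) = {(i, Sum.inl 2)} := by
  ext ⟨j, (t | ⟨c, m⟩)⟩
  · rw [mem_neighborFinset, TT, parGraph_adj, Finset.mem_singleton]
    fin_cases t <;> simp [par]
  · rw [mem_neighborFinset, TT, parGraph_adj, Finset.mem_singleton]
    cases c <;> simp [par]

/-- the leaves -/
def leaves (i : Fin (n + 1)) (c : Bool) : Finset (Fin (n + 1) × Bl) :=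
  (univ : Finset (Fin 19)).image (fun l => (i, Sum.inr (c, l)))

theorem nb_a (i : Fin (n + 1)) : (TT n).neighborFinset (i, Sum.inl 1) =
    insert (i, Sum.inl 0) (insert (i, Sum.inl 2) (leaves n i false)) := by
  ext ⟨j, (t | ⟨c, m⟩)⟩
  · rw [mem_neighborFinset, TT, parGraph_adj]
    fin_cases t <;> simp [par, leaves, eq_comm]
  · rw [mem_neighborFinset, TT, parGraph_adj]
    cases c <;> simp [par, leaves, eq_comm]

theorem nb_b (i : Fin (n + 1)) : (TT n).neighborFinset (i, Sum.inl 2) =
    insert (i, Sum.inl 1) (leaves n i true) := by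
  ext ⟨j, (t | ⟨c, m⟩)⟩
  · rw [mem_neighborFinset, TT, parGraph_adj]
    fin_cases t <;> simp [par, leaves, eq_comm]
  · rw [mem_neighborFinset, TT, parGraph_adj]
    cases c <;> simp [par, leaves, eq_comm]

theorem nb_s (i : Fin (n + 1)) : (TT n).neighborFinset (i, Sum.inl 0) ⊆
    insert (pre i, Sum.inl 0) (insert (nex i, Sum.inl 0) {(i, Sum.inl 1)}) := by
  rintro ⟨j, (t | ⟨c, m⟩)⟩ h
  · rw [mem_neighborFinset, TT, parGraph_adj] at h
    fin_cases t
    · simp only [Fin.zero_eta, Fin.isValue, par, ne_eq, Prod.mk.injEq, and_true, Finset.mem_insert,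
        Finset.mem_singleton, Sum.inl.injEq] at h ⊢
      rcases h with ⟨h1, h2 | h2⟩
      · exact Or.inl h2
      · refine Or.inr (Or.inl ?_)
        have h3 : i.1 = j.1 - 1 := by rw [h2]; rfl
        have h4 : i.1 ≠ j.1 := fun h => h1 (Fin.ext h)
        have h5 := j.2
        apply Fin.ext
        show j.1 = min (i.1 + 1) n
        omega
    · simp [par] at h ⊢
      exact h.symm
    · simp [par] at h
  · rw [mem_neighborFinset, TT, parGraph_adj] at h
    cases c <;> simp [par] at h

theorem card_leaves (i : Fin (n + 1)) (c : Bool) : (leaves n i c).card = 19 := by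
  unfold leaves
  rw [Finset.card_image_of_injective, Finset.card_univ, Fintype.card_fin]
  intro l m h
  simpa using h

theorem deg_leaf1 (i : Fin (n + 1)) (l : Fin 19) : (TT n).degree (i, Sum.inr (false, l)) = 1 := by
  rw [← card_neighborFinset_eq_degree, nb_leaf1, Finset.card_singleton]

theorem deg_leaf2 (i : Fin (n + 1)) (l : Fin 19) : (TT n).degree (i, Sum.inr (true, l)) = 1 := by
  rw [← card_neighborFinset_eq_degree, nb_leaf2, Finset.card_singleton]

theorem deg_a (i : Fin (n + 1)) : (TT n).degree (i, Sum.inl 1) = 21 := by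
  rw [← card_neighborFinset_eq_degree, nb_a, Finset.card_insert_of_notMem,
    Finset.card_insert_of_notMem, card_leaves]
  · simp [leaves]
  · simp [leaves]

theorem deg_b (i : Fin (n + 1)) : (TT n).degree (i, Sum.inl 2) = 20 := by
  rw [← card_neighborFinset_eq_degree, nb_b, Finset.card_insert_of_notMem, card_leaves]
  simp [leaves]

theorem deg_s (i : Fin (n + 1)) : (TT n).degree (i, Sum.inl 0) ≤ 3 := by
  rw [← card_neighborFinset_eq_degree]
  refine (Finset.card_le_card (nb_s n i)).trans ?_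
  exact Finset.card_le_three

end

section

variable {V : Type*} [DecidableEq V]

/-- sum of the products of the values of two distinct elements -/
def E (x : V → ℕ) (N : Finset V) : ℕ := ∑ a ∈ N, ∑ b ∈ N.erase a, x a * x b

theorem E_mono (x : V → ℕ) {N M : Finset V} (h : N ⊆ M) : E x N ≤ E x M := by
  unfold E
  refine (Finset.sum_le_sum fun a _ => ?_).trans (Finset.sum_le_sum_of_subset h)
  exact Finset.sum_le_sum_of_subset (Finset.erase_subset_erase a h)

theorem E_insert (x : V → ℕ) (p : V) (N : Finset V) :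
    E x (insert p N) ≤ E x N + 2 * x p * ∑ a ∈ N, x a := by
  by_cases hp : p ∈ N
  · rw [Finset.insert_eq_of_mem hp]
    exact Nat.le_add_right _ _
  · unfold E
    rw [Finset.sum_insert hp, Finset.erase_insert hp]
    have h1 : ∀ a ∈ N, ∑ b ∈ (insert p N).erase a, x a * x b =
        x a * x p + ∑ b ∈ N.erase a, x a * x b := by
      intro a ha
      have hap : p ≠ a := fun h => hp (h ▸ ha)
      rw [Finset.erase_insert_of_ne hap, Finset.sum_insert]
      intro h
      exact hp (Finset.mem_of_mem_erase h)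
    rw [Finset.sum_congr rfl h1, Finset.sum_add_distrib, ← Finset.mul_sum, ← Finset.sum_mul]
    apply le_of_eq
    ring

theorem sum_insert_le (x : V → ℕ) (p : V) (N : Finset V) :
    ∑ a ∈ insert p N, x a ≤ x p + ∑ a ∈ N, x a := by
  by_cases hp : p ∈ N
  · rw [Finset.insert_eq_of_mem hp]
    exact Nat.le_add_left _ _
  · rw [Finset.sum_insert hp]

theorem E_singleton (x : V → ℕ) (p : V) : E x {p} = 0 := by
  unfold E
  simp

end

variable (n : ℕ)

/-- value -/
noncomputable def xx : Fin (n + 1) × Bl → ℕ := fun v => (TT n).degree v - 1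

theorem E_leaves (i : Fin (n + 1)) (c : Bool) : E (xx n) (leaves n i c) = 0 ∧
    ∑ a ∈ leaves n i c, xx n a = 0 := by
  have h : ∀ a ∈ leaves n i c, xx n a = 0 := by
    intro a ha
    unfold leaves at ha
    rw [Finset.mem_image] at ha
    obtain ⟨l, -, rfl⟩ := ha
    unfold xx
    cases c
    · rw [deg_leaf1]
    · rw [deg_leaf2]
  refine ⟨?_, Finset.sum_eq_zero h⟩
  unfold E
  refine Finset.sum_eq_zero fun a ha => Finset.sum_eq_zero fun b _ => ?_
  rw [h a ha, zero_mul]

/-- weights -/
def wgt : Bl → ℕ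
  | Sum.inl 0 => 168
  | Sum.inl 1 => 76
  | Sum.inl 2 => 0
  | Sum.inr _ => 0

theorem path_bound (v : Fin (n + 1) × Bl) :
    E (xx n) ((TT n).neighborFinset v) ≤ wgt v.2 := by
  have xs : ∀ i, xx n (i, Sum.inl 0) ≤ 2 := fun i => by
    have := deg_s n i
    unfold xx
    omega
  have xa : ∀ i, xx n (i, Sum.inl 1) = 20 := fun i => by unfold xx; rw [deg_a]
  have xb : ∀ i, xx n (i, Sum.inl 2) = 19 := fun i => by unfold xx; rw [deg_b]
  rcases v with ⟨i, (t | ⟨c, l⟩)⟩
  · fin_cases t
    · show E (xx n) ((TT n).neighborFinset (i, Sum.inl 0)) ≤ 168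
      refine (E_mono _ (nb_s n i)).trans ?_
      refine (E_insert _ _ _).trans ?_
      have h1 := E_insert (xx n) (nex i, Sum.inl 0) {(i, Sum.inl 1)}
      rw [E_singleton, Finset.sum_singleton, xa, zero_add] at h1
      have h2 := sum_insert_le (xx n) (nex i, Sum.inl 0) {(i, Sum.inl 1)}
      rw [Finset.sum_singleton, xa] at h2
      have h3 := xs (nex i)
      have h4 := xs (pre i)
      have h6 := Nat.mul_le_mul (show 2 * xx n (pre i, Sum.inl 0) ≤ 4 by omega)
        (h2.trans (show _ ≤ 22 by omega))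
      exact (Nat.add_le_add h1 h6).trans (by omega)
    · show E (xx n) ((TT n).neighborFinset (i, Sum.inl 1)) ≤ 76
      rw [nb_a]
      refine (E_insert _ _ _).trans ?_
      have h1 := E_insert (xx n) (i, Sum.inl 2) (leaves n i false)
      rw [(E_leaves n i false).1, (E_leaves n i false).2, mul_zero, zero_add] at h1
      have h2 := sum_insert_le (xx n) (i, Sum.inl 2) (leaves n i false)
      rw [(E_leaves n i false).2, xb, add_zero] at h2
      have h6 := Nat.mul_le_mul
        (show 2 * xx n (i, Sum.inl 0) ≤ 4 by have := xs i; omega) h2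
      exact (Nat.add_le_add h1 h6).trans (by omega)
    · show E (xx n) ((TT n).neighborFinset (i, Sum.inl 2)) ≤ 0
      rw [nb_b]
      refine (E_insert _ _ _).trans ?_
      rw [(E_leaves n i true).1, (E_leaves n i true).2]
      simp
  · show E (xx n) ((TT n).neighborFinset (i, Sum.inr (c, l))) ≤ 0
    cases c
    · rw [nb_leaf1, E_singleton]
    · rw [nb_leaf2, E_singleton]

theorem P_le : (TT n).copyCount pathFive ≤ 122 * (n + 1) := by
  have h1 := path_count (TT n) (TT_isTree n).2
  have h2 : ∑ v, ∑ a ∈ (TT n).neighborFinset v, ∑ b ∈ ((TT n).neighborFinset v).erase a,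
      ((TT n).degree a - 1) * ((TT n).degree b - 1) ≤ ∑ v : Fin (n + 1) × Bl, wgt v.2 :=
    Finset.sum_le_sum fun v _ => path_bound n v
  have h4 : ∑ t : Bl, wgt t = 244 := by decide
  have h3 : ∑ v : Fin (n + 1) × Bl, wgt v.2 = 244 * (n + 1) := by
    rw [Fintype.sum_prod_type]
    simp only [h4]
    simp
    ring
  rw [h3, ← h1] at h2
  omega

theorem S_eq : (TT n).copyCount starFive = 10830 * (n + 1) := by
  have h1 := star_count (TT n)
  rw [Fintype.sum_prod_type] at h1
  have h2 : ∀ i : Fin (n + 1), ∑ t : Bl, (TT n).degree (i, t) * ((TT n).degree (i, t) - 1) *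
      ((TT n).degree (i, t) - 2) * ((TT n).degree (i, t) - 3) = 259920 := by
    intro i
    rw [Fintype.sum_sum_type, Fin.sum_univ_three, deg_a, deg_b]
    have h3 : (TT n).degree (i, Sum.inl 0) - 3 = 0 := by
      have := deg_s n i
      omega
    rw [h3]
    have h4 : ∀ t : Bool × Fin 19, (TT n).degree (i, Sum.inr t) = 1 := by
      rintro ⟨c, l⟩
      cases c
      · exact deg_leaf1 n i l
      · exact deg_leaf2 n i l
    simp [h4]
  rw [Finset.sum_congr rfl fun i _ => h2 i] at h1
  simp at h1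
  omega

theorem Y_ge : 7030 * (n + 1) ≤ (TT n).copyCount wyeFive := by
  have h1 := wye_count (TT n) (TT_isTree n).2
  rw [Fintype.sum_prod_type] at h1
  have h2 : ∀ i : Fin (n + 1), 14060 ≤ ∑ t : Bl, ∑ w ∈ (TT n).neighborFinset (i, t),
      ((TT n).degree (i, t) - 1) * ((TT n).degree (i, t) - 2) * ((TT n).degree w - 1) := by
    intro i
    rw [Fintype.sum_sum_type, Fin.sum_univ_three, deg_a, deg_b]
    have h3 : 7220 ≤ ∑ w ∈ (TT n).neighborFinset (i, Sum.inl 1),
        (21 - 1) * (21 - 2) * ((TT n).degree w - 1) := by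
      have hm : ((i, Sum.inl 2) : Fin (n + 1) × Bl) ∈ (TT n).neighborFinset (i, Sum.inl 1) := by
        rw [nb_a]
        simp
      have := Finset.single_le_sum (f := fun w => (21 - 1) * (21 - 2) * ((TT n).degree w - 1))
        (fun _ _ => Nat.zero_le _) hm
      simp only [deg_b] at this
      omega
    have h4 : 6840 ≤ ∑ w ∈ (TT n).neighborFinset (i, Sum.inl 2),
        (20 - 1) * (20 - 2) * ((TT n).degree w - 1) := by
      have hm : ((i, Sum.inl 1) : Fin (n + 1) × Bl) ∈ (TT n).neighborFinset (i, Sum.inl 2) := by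
        rw [nb_b]
        simp
      have := Finset.single_le_sum (f := fun w => (20 - 1) * (20 - 2) * ((TT n).degree w - 1))
        (fun _ _ => Nat.zero_le _) hm
      simp only [deg_a] at this
      omega
    omega
  have h5 : ∑ _i : Fin (n + 1), 14060 ≤ ∑ i : Fin (n + 1), ∑ t : Bl,
      ∑ w ∈ (TT n).neighborFinset (i, t),
      ((TT n).degree (i, t) - 1) * ((TT n).degree (i, t) - 2) * ((TT n).degree w - 1) :=
    Finset.sum_le_sum fun i _ => h2 i
  rw [← h1] at h5
  simp at h5
  omega

end Pool.Agent.Helper842.Wye
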