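import Pool.Agent.Helper842_Wye.Local
import Pool.Agent.Helper842_Wye.Sums

set_option autoImplicit false

namespace Pool.Agent.Helper842.Wye

open SimpleGraph Finset

section

variable {V : Type*} [DecidableEq V]

theorem sum_g (N : Finset V) (y : V → ℤ) (k : ℤ) : ∑ a ∈ N, g k (y a) =
    4 * k * (k - 1) * ∑ a ∈ N, y a + ∑ a ∈ N, K (y a) k + 24 * N.card := by
  unfold g
  rw [Finset.sum_add_distrib, Finset.sum_add_distrib, ← Finset.mul_sum, Finset.sum_const,
    nsmul_eq_mul]
  ring

theorem local_core (N : Finset V) (y : V → ℤ) (h0 : ∀ a, 0 ≤ y a) (k : ℤ) (hk : 1 ≤ k)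
    (hN : (N.card : ℤ) = k + 1) :
    ∑ a ∈ N, g k (y a) - 4 * ((∑ a ∈ N, y a) ^ 2 - ∑ a ∈ N, y a ^ 2) ≤
      48 + 3 * ((k + 1) * k * (k - 1) * (k - 2)) := by
  rcases lt_or_ge k 4 with h4 | h4
  · obtain rfl | rfl | rfl : k = 1 ∨ k = 2 ∨ k = 3 := by omega
    · have hc : N.card = 2 := by omega
      obtain ⟨a, b, hab, rfl⟩ := Finset.card_eq_two.1 hc
      have hm := e2_mono {a, b} y (fun i => min (y i) 2) (fun i => le_min (h0 i) (by norm_num))
        (fun i => min_le_left _ _)
      simp only [Finset.sum_pair hab] at hm ⊢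
      rw [g_cap1 (y a), g_cap1 (y b)]
      obtain ⟨i, hi⟩ : ∃ i : Fin 3, (i : ℤ) = min (y a) 2 := by
        refine ⟨⟨(min (y a) 2).toNat, ?_⟩, ?_⟩
        · have := h0 a; omega
        · have := h0 a
          push_cast
          omega
      obtain ⟨j, hj⟩ : ∃ j : Fin 3, (j : ℤ) = min (y b) 2 := by
        refine ⟨⟨(min (y b) 2).toNat, ?_⟩, ?_⟩
        · have := h0 b; omega
        · have := h0 b
          push_cast
          omega
      rw [← hi, ← hj] at hm ⊢
      have := dec1 i j
      linarith
    · have hc : N.card = 3 := by omega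
      obtain ⟨a, b, c, hab, hac, hbc, rfl⟩ := Finset.card_eq_three.1 hc
      have hm := e2_mono {a, b, c} y (fun i => min (y i) 3) (fun i => le_min (h0 i) (by norm_num))
        (fun i => min_le_left _ _)
      have hs : ∀ f : V → ℤ, ∑ x ∈ ({a, b, c} : Finset V), f x = f a + f b + f c := by
        intro f
        rw [Finset.sum_insert (by simp [hab, hac]), Finset.sum_pair hbc]
        ring
      simp only [hs] at hm ⊢
      rw [g_cap2 (y a), g_cap2 (y b), g_cap2 (y c)]
      have hex : ∀ a, ∃ i : Fin 4, (i : ℤ) = min (y a) 3 := by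
        intro a
        refine ⟨⟨(min (y a) 3).toNat, ?_⟩, ?_⟩
        · have := h0 a; omega
        · have := h0 a
          push_cast
          omega
      obtain ⟨i, hi⟩ := hex a
      obtain ⟨j, hj⟩ := hex b
      obtain ⟨l, hl⟩ := hex c
      rw [← hi, ← hj, ← hl] at hm ⊢
      have := dec2 i j l
      linarith
    · have hc : N.card = 4 := by omega
      obtain ⟨d, N', hd, rfl, hN'⟩ := Finset.card_eq_succ.1 hc
      obtain ⟨a, b, c, hab, hac, hbc, rfl⟩ := Finset.card_eq_three.1 hN'
      have hm := e2_mono (insert d {a, b, c}) y (fun i => min (y i) 3)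
        (fun i => le_min (h0 i) (by norm_num)) (fun i => min_le_left _ _)
      have hs : ∀ f : V → ℤ, ∑ x ∈ (insert d {a, b, c} : Finset V), f x =
          f a + f b + f c + f d := by
        intro f
        rw [Finset.sum_insert hd, Finset.sum_insert (by simp [hab, hac]), Finset.sum_pair hbc]
        ring
      simp only [hs] at hm ⊢
      rw [g_cap3 3 le_rfl (y a), g_cap3 3 le_rfl (y b), g_cap3 3 le_rfl (y c),
        g_cap3 3 le_rfl (y d)]
      have hex : ∀ a, ∃ i : Fin 4, (i : ℤ) = min (y a) 3 := by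
        intro a
        refine ⟨⟨(min (y a) 3).toNat, ?_⟩, ?_⟩
        · have := h0 a; omega
        · have := h0 a
          push_cast
          omega
      obtain ⟨i, hi⟩ := hex a
      obtain ⟨j, hj⟩ := hex b
      obtain ⟨l, hl⟩ := hex c
      obtain ⟨m, hm'⟩ := hex d
      rw [← hi, ← hj, ← hl, ← hm'] at hm ⊢
      have := dec3 i j l m
      linarith
  · have hm := e2_mono N y (fun i => min (y i) k) (fun i => le_min (h0 i) (by linarith))
      (fun i => min_le_left _ _)
    have hg : ∑ a ∈ N, g k (y a) = ∑ a ∈ N, g k (min (y a) k) :=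
      Finset.sum_congr rfl fun a _ => g_cap3 k (by linarith) (y a)
    rw [hg]
    refine le_trans (sub_le_sub_left (mul_le_mul_of_nonneg_left hm (by norm_num)) _) ?_
    rcases eq_or_lt_of_le h4 with h5 | h5
    · subst h5
      exact local_ge4 N (fun i => min (y i) 4) (fun i => le_min (h0 i) (by norm_num)) 4 64 le_rfl
        (fun i => min_le_right _ _) g_bound4 (by norm_num)
    · have h5' : 5 ≤ k := by linarith
      refine local_ge4 N (fun i => min (y i) k) (fun i => le_min (h0 i) (by linarith)) k _ h4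
        (fun i => min_le_right _ _) (fun y h h' => g_bound5 k h5' y h h') ?_
      have := poly5 k h5'
      have e : 4 * k * (k - 1) + (k - 1) ^ 2 + 8 + 4 * k = 5 * k ^ 2 - 2 * k + 9 := by ring
      rw [e]
      linarith

theorem local_all (N : Finset V) (y : V → ℤ) (h0 : ∀ a, 0 ≤ y a) (k : ℤ) (hk : 0 ≤ k)
    (hN : (N.card : ℤ) = k + 1) :
    4 * (k * (k - 1) * ∑ a ∈ N, y a) - 4 * (∑ a ∈ N, ∑ b ∈ N.erase a, y a * y b) -
      3 * ((k + 1) * k * (k - 1) * (k - 2)) + ∑ a ∈ N, K (y a) k ≤ 24 * (1 - k) := by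
  rw [two_e2]
  rcases eq_or_lt_of_le hk with h | h
  · subst h
    have hc : N.card = 1 := by omega
    obtain ⟨a, rfl⟩ := Finset.card_eq_one.1 hc
    simp only [Finset.sum_singleton]
    have : K (y a) 0 ≤ 24 := by
      unfold K U
      rw [if_neg (not_lt.2 (h0 a))]
      split_ifs <;> simp_all
    linarith
  · have h1 := local_core N y h0 k (by linarith) hN
    rw [sum_g, hN] at h1
    linarith

end

variable {V : Type*} [Fintype V] [DecidableEq V] (T : SimpleGraph V) [DecidableRel T.Adj]

theorem sum_K_zero (y : V → ℤ) : ∑ v, ∑ w ∈ T.neighborFinset v, K (y w) (y v) = 0 := by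
  have h1 : ∑ v, ∑ w ∈ T.neighborFinset v, K (y w) (y v) =
      ∑ v, ∑ w, if T.Adj v w then K (y w) (y v) else 0 := by
    refine Finset.sum_congr rfl fun v _ => ?_
    rw [← Finset.sum_filter]
    refine Finset.sum_congr ?_ fun _ _ => rfl
    ext w
    simp
  have h2 : ∑ v, ∑ w, (if T.Adj v w then K (y w) (y v) else 0) =
      -∑ v, ∑ w, (if T.Adj v w then K (y w) (y v) else 0) := by
    conv_lhs => rw [Finset.sum_comm]
    rw [← Finset.sum_neg_distrib]
    refine Finset.sum_congr rfl fun v _ => ?_
    rw [← Finset.sum_neg_distrib]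
    refine Finset.sum_congr rfl fun w _ => ?_
    by_cases h : T.Adj v w
    · rw [if_pos h, if_pos h.symm, K_anti]
    · rw [if_neg h, if_neg (fun h' => h h'.symm)]
      simp
  rw [h1]
  linarith

theorem main_ineq (hT : T.IsTree) :
    T.copyCount wyeFive ≤ 9 * T.copyCount starFive + T.copyCount pathFive + 6 := by
  have hw := wye_count T hT.2
  have hs := star_count T
  have hp := path_count T hT.2
  haveI := hT.1.nonempty
  by_cases hc : Fintype.card V = 1
  · have h0 : ∀ v, T.neighborFinset v = ∅ := by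
      intro v
      rw [Finset.eq_empty_iff_forall_notMem]
      intro w hw
      rw [mem_neighborFinset] at hw
      exact hw.ne (Fintype.card_le_one_iff.1 hc.le _ _)
    simp only [h0, Finset.sum_empty, Finset.sum_const_zero] at hw
    omega
  · have hcard : 1 < Fintype.card V := by
      have := Fintype.card_pos (α := V)
      omega
    haveI : Nontrivial V := Fintype.one_lt_card_iff_nontrivial.1 hcard
    have hdeg : ∀ v, 1 ≤ T.degree v := fun v => hT.1.preconnected.degree_pos_of_nontrivial v
    -- integer values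
    obtain ⟨x, hx⟩ : ∃ x : V → ℤ, ∀ v, x v = (T.degree v : ℤ) - 1 := ⟨_, fun v => rfl⟩
    have hx0 : ∀ v, 0 ≤ x v := fun v => by rw [hx]; have := hdeg v; omega
    have hcast : ∀ v, ((T.degree v - 1 : ℕ) : ℤ) = x v := fun v => by
      rw [hx]; have := hdeg v; omega
    have hw' : (T.copyCount wyeFive : ℤ) * 2 =
        ∑ v, x v * (x v - 1) * ∑ w ∈ T.neighborFinset v, x w := by
      have := congrArg (Nat.cast : ℕ → ℤ) hw
      push_cast at this
      rw [this]
      refine Finset.sum_congr rfl fun v _ => ?_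
      rw [Finset.mul_sum]
      refine Finset.sum_congr rfl fun w _ => ?_
      rw [← hcast w, ← hcast v]
      have := hdeg v
      rcases Nat.lt_or_ge (T.degree v) 2 with h | h
      · have h1 : T.degree v = 1 := by omega
        simp [h1]
      · have h1 : ((T.degree v - 2 : ℕ) : ℤ) = ((T.degree v - 1 : ℕ) : ℤ) - 1 := by omega
        rw [h1]
    have hs' : (T.copyCount starFive : ℤ) * 24 =
        ∑ v, (x v + 1) * x v * (x v - 1) * (x v - 2) := by
      have := congrArg (Nat.cast : ℕ → ℤ) hs
      push_cast at this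
      rw [this]
      refine Finset.sum_congr rfl fun v _ => ?_
      have := hdeg v
      obtain ⟨e, he⟩ : ∃ e, T.degree v = e := ⟨_, rfl⟩
      rw [hx v, he]
      rw [he] at this
      rcases Nat.lt_or_ge e 4 with h | h
      · interval_cases e <;> norm_num
      · have h1 : ((e - 1 : ℕ) : ℤ) = (e : ℤ) - 1 := by omega
        have h2 : ((e - 2 : ℕ) : ℤ) = (e : ℤ) - 2 := by omega
        have h3 : ((e - 3 : ℕ) : ℤ) = (e : ℤ) - 3 := by omega
        rw [h1, h2, h3]
        ring
    have hp' : (T.copyCount pathFive : ℤ) * 2 =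
        ∑ v, ∑ a ∈ T.neighborFinset v, ∑ b ∈ (T.neighborFinset v).erase a, x a * x b := by
      have := congrArg (Nat.cast : ℕ → ℤ) hp
      push_cast at this
      rw [this]
      refine Finset.sum_congr rfl fun v _ => Finset.sum_congr rfl fun a _ =>
        Finset.sum_congr rfl fun b _ => ?_
      rw [hcast, hcast]
    have hloc : ∀ v, 4 * (x v * (x v - 1) * ∑ w ∈ T.neighborFinset v, x w) -
        4 * (∑ a ∈ T.neighborFinset v, ∑ b ∈ (T.neighborFinset v).erase a, x a * x b) -
        3 * ((x v + 1) * x v * (x v - 1) * (x v - 2)) +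
        ∑ a ∈ T.neighborFinset v, K (x a) (x v) ≤ 24 * (1 - x v) := fun v =>
      local_all (T.neighborFinset v) x hx0 (x v) (hx0 v) (by
        rw [T.card_neighborFinset_eq_degree, hx]; ring)
    have hsum := Finset.sum_le_sum (s := Finset.univ) fun v _ => hloc v
    rw [Finset.sum_add_distrib, Finset.sum_sub_distrib, Finset.sum_sub_distrib,
      ← Finset.mul_sum, ← Finset.mul_sum, ← Finset.mul_sum, ← Finset.mul_sum,
      sum_K_zero, ← hw', ← hp', ← hs'] at hsum
    have hedge : ∑ v, (1 - x v) = 2 := by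
      have h1 : ∑ v, (1 - x v) = 2 * (Fintype.card V : ℤ) - ∑ v, (T.degree v : ℤ) := by
        have : ∀ v, 1 - x v = 2 - (T.degree v : ℤ) := fun v => by rw [hx]; ring
        rw [Finset.sum_congr rfl fun v _ => this v, Finset.sum_sub_distrib, Finset.sum_const,
          Finset.card_univ, nsmul_eq_mul]
        ring
      have h2 := T.sum_degrees_eq_twice_card_edges
      have h3 := hT.card_edgeFinset
      have h4 : ∑ v, (T.degree v : ℤ) = 2 * (T.edgeFinset.card : ℤ) := by exact_mod_cast h2
      rw [h1, h4]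
      have h5 : (T.edgeFinset.card : ℤ) + 1 = (Fintype.card V : ℤ) := by exact_mod_cast h3
      linarith
    rw [hedge] at hsum
    have : (T.copyCount wyeFive : ℤ) ≤ 9 * T.copyCount starFive + T.copyCount pathFive + 6 := by
      linarith
    exact_mod_cast this

end Pool.Agent.Helper842.Wye
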