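import Pool.Agent.Helper842_Wye.Count

set_option autoImplicit false

namespace Pool.Agent.Helper842.Wye

open SimpleGraph Finset

variable {V : Type*}

theorem no_tri {T : SimpleGraph V} (hT : T.IsAcyclic) {a b c : V} (h1 : T.Adj a b)
    (h2 : T.Adj b c) (h3 : T.Adj c a) : False := by
  classical
  let p : T.Walk a c := Walk.cons h1 (Walk.cons h2 Walk.nil)
  let q : T.Walk a c := Walk.cons h3.symm Walk.nil
  have hp : p.IsPath := by
    simp only [p, Walk.cons_isPath_iff, Walk.support_cons, Walk.support_nil, List.mem_cons,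
      List.not_mem_nil, or_false, Walk.IsPath.nil, true_and]
    exact ⟨h2.ne, fun h => h.elim h1.ne h3.ne'⟩
  have hq : q.IsPath := by
    simp only [q, Walk.cons_isPath_iff, Walk.support_nil, List.mem_cons,
      List.not_mem_nil, or_false, Walk.IsPath.nil, true_and]
    exact h3.ne'
  have h := congrArg (fun w : T.Path a c => (w : T.Walk a c).length)
    ((hT.subsingleton_path a c).elim ⟨p, hp⟩ ⟨q, hq⟩)
  simp [p, q] at h

theorem no_c4 {T : SimpleGraph V} (hT : T.IsAcyclic) {a b c d : V} (h1 : T.Adj a b)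
    (h2 : T.Adj b c) (h3 : T.Adj c d) (h4 : T.Adj d a) (hac : a ≠ c) (hbd : b ≠ d) : False := by
  classical
  let p : T.Walk a c := Walk.cons h1 (Walk.cons h2 Walk.nil)
  let q : T.Walk a c := Walk.cons h4.symm (Walk.cons h3.symm Walk.nil)
  have hp : p.IsPath := by
    simp only [p, Walk.cons_isPath_iff, Walk.support_cons, Walk.support_nil, List.mem_cons,
      List.not_mem_nil, or_false, Walk.IsPath.nil, true_and]
    exact ⟨h2.ne, fun h => h.elim h1.ne hac⟩
  have hq : q.IsPath := by
    simp only [q, Walk.cons_isPath_iff, Walk.support_cons, Walk.support_nil, List.mem_cons,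
      List.not_mem_nil, or_false, Walk.IsPath.nil, true_and]
    exact ⟨h3.ne', fun h => h.elim h4.ne' hac⟩
  have h := congrArg (fun w : T.Path a c => (w : T.Walk a c).getVert 1)
    ((hT.subsingleton_path a c).elim ⟨p, hp⟩ ⟨q, hq⟩)
  simp [p, q] at h
  exact hbd h

section

variable [Fintype V] [DecidableEq V] (T : SimpleGraph V) [DecidableRel T.Adj]

theorem card_nbr_erase {a v : V} (h : T.Adj a v) :
    (univ.filter (fun x => T.Adj a x ∧ x ≠ v)).card = T.degree a - 1 := by
  have e : univ.filter (fun x => T.Adj a x ∧ x ≠ v) = (T.neighborFinset a).erase v := by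
    ext x
    simp [and_comm]
  rw [e, Finset.card_erase_of_mem (by simpa using h), T.card_neighborFinset_eq_degree]

/-- the tuples for the path: centre `v`, its neighbours `a ≠ b`, end points `x`, `y` -/
def pathTup : Finset (V × V × V × V × V) :=
  univ.filter (fun t => ((T.Adj t.1 t.2.1 ∧ (T.Adj t.1 t.2.2.1 ∧ t.2.2.1 ≠ t.2.1)) ∧
    (T.Adj t.2.1 t.2.2.2.1 ∧ t.2.2.2.1 ≠ t.1)) ∧ (T.Adj t.2.2.1 t.2.2.2.2 ∧ t.2.2.2.2 ≠ t.1))

omit [DecidableEq V] [DecidableRel T.Adj] in
theorem labelled_eq_card (H : SimpleGraph (Fin 5)) {U : Type*} (S : Finset U)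
    (φ : Copy H T → U) (h1 : ∀ f, φ f ∈ S) (h2 : ∀ f g, φ f = φ g → f = g)
    (h3 : ∀ t ∈ S, ∃ f, φ f = t) : T.labelledCopyCount H = S.card := by
  have e : T.labelledCopyCount H = Nat.card (Copy H T) := lcc_eq T H
  have hb : Function.Bijective (fun f : Copy H T => (⟨φ f, h1 f⟩ : S)) := by
    constructor
    · intro f g hfg
      exact h2 f g (congrArg Subtype.val hfg)
    · rintro ⟨t, ht⟩
      obtain ⟨f, hf⟩ := h3 t ht
      exact ⟨f, Subtype.ext hf⟩
  rw [e, Nat.card_eq_of_bijective _ hb, Nat.card_eq_fintype_card, Fintype.card_coe]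

theorem labelled_path (hT : T.IsAcyclic) :
    T.labelledCopyCount pathFive = (pathTup T).card := by
  refine labelled_eq_card T pathFive (pathTup T) (fun f => (f 2, f 1, f 3, f 0, f 4)) ?_ ?_ ?_
  · intro f
    have adj : ∀ i j, pathFive.Adj i j → T.Adj (f i) (f j) := fun i j h => f.toHom.map_adj h
    have ne : ∀ i j, i ≠ j → f i ≠ f j := fun i j h h' => h (f.injective h')
    unfold pathTup
    rw [Finset.mem_filter]
    refine ⟨Finset.mem_univ _, ⟨⟨adj _ _ (by simp [pathFive]), adj _ _ (by simp [pathFive]),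
      ne _ _ (by decide)⟩, adj _ _ (by simp [pathFive]), ne _ _ (by decide)⟩,
      adj _ _ (by simp [pathFive]), ne _ _ (by decide)⟩
  · intro f g h
    simp only [Prod.mk.injEq] at h
    obtain ⟨h2, h1, h3, h0, h4⟩ := h
    apply Copy.ext
    intro i
    fin_cases i
    · exact h0
    · exact h1
    · exact h2
    · exact h3
    · exact h4
  · rintro ⟨v, a, b, x, y⟩ ht
    unfold pathTup at ht
    rw [Finset.mem_filter] at ht
    obtain ⟨-, ⟨⟨hva, hvb, hba⟩, hax, hxv⟩, hby, hyv⟩ := ht
    simp only at hva hvb hba hax hxv hby hyv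
    have hab := hba.symm
    have hxb : x ≠ b := fun h => by
      subst h
      exact no_tri hT hva hax hvb.symm
    have hya : y ≠ a := fun h => by
      subst h
      exact no_tri hT hvb hby hva.symm
    have hxy : x ≠ y := fun h => by
      subst h
      exact no_c4 hT hva hax hby.symm hvb.symm hxv.symm hab
    have hinj : Function.Injective ![x, a, v, b, y] := by
      intro i j hij
      have := hax.ne
      have := hva.ne
      have := hvb.ne
      have := hby.ne
      fin_cases i <;> fin_cases j <;> simp_all [eq_comm]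
    have hadj : ∀ i j, pathFive.Adj i j → T.Adj (![x, a, v, b, y] i) (![x, a, v, b, y] j) := by
      intro i j hij
      have := hax.symm
      have := hva.symm
      have := hvb.symm
      have := hby.symm
      fin_cases i <;> fin_cases j <;> simp_all [pathFive]
    exact ⟨⟨⟨![x, a, v, b, y], fun {i j} h => hadj i j h⟩, hinj⟩, rfl⟩

/-- the tuples for the star: centre and four distinct neighbours -/
def starTup : Finset (V × V × V × V × V) :=
  univ.filter (fun t => ((T.Adj t.1 t.2.1 ∧ (T.Adj t.1 t.2.2.1 ∧ t.2.2.1 ≠ t.2.1)) ∧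
    (T.Adj t.1 t.2.2.2.1 ∧ t.2.2.2.1 ≠ t.2.1 ∧ t.2.2.2.1 ≠ t.2.2.1)) ∧
    (T.Adj t.1 t.2.2.2.2 ∧ t.2.2.2.2 ≠ t.2.1 ∧ t.2.2.2.2 ≠ t.2.2.1 ∧ t.2.2.2.2 ≠ t.2.2.2.1))

theorem labelled_star : T.labelledCopyCount starFive = (starTup T).card := by
  refine labelled_eq_card T starFive (starTup T) (fun f => (f 0, f 1, f 2, f 3, f 4)) ?_ ?_ ?_
  · intro f
    have adj : ∀ i j, starFive.Adj i j → T.Adj (f i) (f j) := fun i j h => f.toHom.map_adj h
    have ne : ∀ i j, i ≠ j → f i ≠ f j := fun i j h h' => h (f.injective h')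
    unfold starTup
    rw [Finset.mem_filter]
    refine ⟨Finset.mem_univ _, ⟨⟨adj _ _ (by simp [starFive]), adj _ _ (by simp [starFive]),
      ne _ _ (by decide)⟩, adj _ _ (by simp [starFive]), ne _ _ (by decide), ne _ _ (by decide)⟩,
      adj _ _ (by simp [starFive]), ne _ _ (by decide), ne _ _ (by decide), ne _ _ (by decide)⟩
  · intro f g h
    simp only [Prod.mk.injEq] at h
    obtain ⟨h0, h1, h2, h3, h4⟩ := h
    apply Copy.ext
    intro i
    fin_cases i
    · exact h0
    · exact h1
    · exact h2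
    · exact h3
    · exact h4
  · rintro ⟨v, a, b, x, y⟩ ht
    unfold starTup at ht
    rw [Finset.mem_filter] at ht
    obtain ⟨-, ⟨⟨hva, hvb, hba⟩, hvx, hxa, hxb⟩, hvy, hya, hyb, hyx⟩ := ht
    simp only at hva hvb hvx hvy hba hxa hxb hya hyb hyx
    have hinj : Function.Injective ![v, a, b, x, y] := by
      intro i j hij
      have := hva.ne
      have := hvb.ne
      have := hvx.ne
      have := hvy.ne
      fin_cases i <;> fin_cases j <;> simp_all [eq_comm]
    have hadj : ∀ i j, starFive.Adj i j → T.Adj (![v, a, b, x, y] i) (![v, a, b, x, y] j) := by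
      intro i j hij
      have := hva.symm
      have := hvb.symm
      have := hvx.symm
      have := hvy.symm
      fin_cases i <;> fin_cases j <;> simp_all [starFive]
    exact ⟨⟨⟨![v, a, b, x, y], fun {i j} h => hadj i j h⟩, hinj⟩, rfl⟩

/-- the tuples for the wye: centre `v`, its neighbour `w`, two further neighbours `a ≠ b` and a
neighbour `z` of `w` -/
def wyeTup : Finset (V × V × V × V × V) :=
  univ.filter (fun t => ((T.Adj t.1 t.2.1 ∧ (T.Adj t.1 t.2.2.1 ∧ t.2.2.1 ≠ t.2.1)) ∧
    (T.Adj t.1 t.2.2.2.1 ∧ t.2.2.2.1 ≠ t.2.1 ∧ t.2.2.2.1 ≠ t.2.2.1)) ∧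
    (T.Adj t.2.1 t.2.2.2.2 ∧ t.2.2.2.2 ≠ t.1))

theorem labelled_wye (hT : T.IsAcyclic) : T.labelledCopyCount wyeFive = (wyeTup T).card := by
  refine labelled_eq_card T wyeFive (wyeTup T) (fun f => (f 0, f 3, f 1, f 2, f 4)) ?_ ?_ ?_
  · intro f
    have adj : ∀ i j, wyeFive.Adj i j → T.Adj (f i) (f j) := fun i j h => f.toHom.map_adj h
    have ne : ∀ i j, i ≠ j → f i ≠ f j := fun i j h h' => h (f.injective h')
    unfold wyeTup
    rw [Finset.mem_filter]
    refine ⟨Finset.mem_univ _, ⟨⟨adj _ _ (by simp [wyeFive]), adj _ _ (by simp [wyeFive]),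
      ne _ _ (by decide)⟩, adj _ _ (by simp [wyeFive]), ne _ _ (by decide), ne _ _ (by decide)⟩,
      adj _ _ (by simp [wyeFive]), ne _ _ (by decide)⟩
  · intro f g h
    simp only [Prod.mk.injEq] at h
    obtain ⟨h0, h3, h1, h2, h4⟩ := h
    apply Copy.ext
    intro i
    fin_cases i
    · exact h0
    · exact h1
    · exact h2
    · exact h3
    · exact h4
  · rintro ⟨v, w, a, b, z⟩ ht
    unfold wyeTup at ht
    rw [Finset.mem_filter] at ht
    obtain ⟨-, ⟨⟨hvw, hva, haw⟩, hvb, hbw, hba⟩, hwz, hzv⟩ := ht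
    simp only at hvw hva haw hvb hbw hba hwz hzv
    have hza : z ≠ a := fun h => by
      subst h
      exact no_tri hT hvw hwz hva.symm
    have hzb : z ≠ b := fun h => by
      subst h
      exact no_tri hT hvw hwz hvb.symm
    have hinj : Function.Injective ![v, a, b, w, z] := by
      intro i j hij
      have := hva.ne
      have := hvb.ne
      have := hvw.ne
      have := hwz.ne
      fin_cases i <;> fin_cases j <;> simp_all [eq_comm]
    have hadj : ∀ i j, wyeFive.Adj i j → T.Adj (![v, a, b, w, z] i) (![v, a, b, w, z] j) := by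
      intro i j hij
      have := hva.symm
      have := hvb.symm
      have := hvw.symm
      have := hwz.symm
      fin_cases i <;> fin_cases j <;> simp_all [wyeFive]
    exact ⟨⟨⟨![v, a, b, w, z], fun {i j} h => hadj i j h⟩, hinj⟩, rfl⟩

end

end Pool.Agent.Helper842.Wye
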