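import Mathlib

set_option autoImplicit false

namespace Pool.Agent.Helper842.Wye

open Finset

/-- charge paid by the larger value `x` for a neighbour with the smaller value `y` -/
def U (y x : ℤ) : ℤ :=
  if y = 0 then -24 else if y = 1 then -8 else if y = 2 then 8 * (x - 3) else
    4 * y * (y - 1) * (x - y)

/-- the antisymmetric charge -/
def K (y x : ℤ) : ℤ := if y < x then U y x else if x < y then -U x y else 0

theorem K_anti (y x : ℤ) : K x y = -K y x := by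
  unfold K
  rcases lt_trichotomy y x with h | h | h
  · rw [if_neg (not_lt.2 h.le), if_pos h, if_pos h]
  · subst h
    simp
  · rw [if_pos h, if_neg (not_lt.2 h.le), if_pos h, neg_neg]

section

variable {V : Type*} [DecidableEq V]

theorem two_e2 (N : Finset V) (y : V → ℤ) :
    ∑ a ∈ N, ∑ b ∈ N.erase a, y a * y b = (∑ a ∈ N, y a) ^ 2 - ∑ a ∈ N, y a ^ 2 := by
  have h : ∀ a ∈ N, ∑ b ∈ N.erase a, y a * y b = y a * (∑ b ∈ N, y b) - y a ^ 2 := by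
    intro a ha
    rw [← Finset.mul_sum, ← Finset.add_sum_erase N y ha]
    ring
  rw [Finset.sum_congr rfl h, Finset.sum_sub_distrib, ← Finset.sum_mul]
  ring

theorem e2_mono (N : Finset V) (y z : V → ℤ) (h0 : ∀ a, 0 ≤ z a) (h : ∀ a, z a ≤ y a) :
    (∑ a ∈ N, z a) ^ 2 - ∑ a ∈ N, z a ^ 2 ≤ (∑ a ∈ N, y a) ^ 2 - ∑ a ∈ N, y a ^ 2 := by
  rw [← two_e2, ← two_e2]
  refine Finset.sum_le_sum fun a _ => Finset.sum_le_sum fun b _ => ?_
  exact mul_le_mul (h a) (h b) (h0 b) ((h0 a).trans (h a))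

end

/-- gain of a neighbour of value `y` at a vertex of value `k` -/
def g (k y : ℤ) : ℤ := 4 * k * (k - 1) * y + K y k + 24

theorem poly5 (k : ℤ) (hk : 5 ≤ k) :
    (5 * k ^ 2 - 2 * k + 9) ^ 2 ≤ 768 + 48 * ((k + 1) * k * (k - 1) * (k - 2)) := by
  obtain ⟨t, ht⟩ : ∃ t : ℤ, k = t + 5 := ⟨k - 5, by ring⟩
  have ht0 : 0 ≤ t := by linarith
  subst ht
  have : 0 ≤ 23 * t ^ 4 + 384 * t ^ 3 + 2168 * t ^ 2 + 4512 * t + 2672 := by positivity
  nlinarith [this]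

/-- the reduced form of the local inequality -/
theorem local_ge4 {V : Type*} [DecidableEq V] (N : Finset V) (y : V → ℤ) (h0 : ∀ a, 0 ≤ y a)
    (k G : ℤ) (hk : 4 ≤ k) (hyk : ∀ a, y a ≤ k) (hg : ∀ y, 0 ≤ y → y ≤ k → g k y ≤ G * y)
    (hG : (G + 4 * k) ^ 2 ≤ 16 * (48 + 3 * ((k + 1) * k * (k - 1) * (k - 2)))) :
    ∑ a ∈ N, g k (y a) - 4 * ((∑ a ∈ N, y a) ^ 2 - ∑ a ∈ N, y a ^ 2) ≤
      48 + 3 * ((k + 1) * k * (k - 1) * (k - 2)) := by
  have h1 : ∑ a ∈ N, g k (y a) ≤ G * ∑ a ∈ N, y a := by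
    rw [Finset.mul_sum]
    exact Finset.sum_le_sum fun a _ => hg _ (h0 a) (hyk a)
  have h2 : ∑ a ∈ N, y a ^ 2 ≤ k * ∑ a ∈ N, y a := by
    rw [Finset.mul_sum]
    refine Finset.sum_le_sum fun a _ => ?_
    nlinarith [h0 a, hyk a]
  nlinarith [sq_nonneg (G + 4 * k - 8 * ∑ a ∈ N, y a)]

theorem g_zero (k : ℤ) (hk : 1 ≤ k) : g k 0 = 0 := by
  unfold g K U
  rw [if_pos (by linarith)]
  simp

theorem g_bound5 (k : ℤ) (hk : 5 ≤ k) (y : ℤ) (h0 : 0 ≤ y) (hy : y ≤ k) :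
    g k y ≤ (4 * k * (k - 1) + (k - 1) ^ 2 + 8) * y := by
  rcases eq_or_lt_of_le h0 with h | h
  · rw [← h, g_zero k (by linarith)]
    simp
  rcases eq_or_lt_of_le hy with hyk | hyk
  · rw [hyk]
    unfold g K
    simp only [lt_irrefl, if_false]
    nlinarith [mul_nonneg (by linarith : (0:ℤ) ≤ k) (sq_nonneg (k - 1))]
  unfold g K U
  rw [if_pos hyk, if_neg (by linarith : ¬ y = 0)]
  by_cases h1 : y = 1
  · rw [if_pos h1, h1]
    nlinarith
  rw [if_neg h1]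
  by_cases h2 : y = 2
  · rw [if_pos h2, h2]
    nlinarith [sq_nonneg (k - 3)]
  rw [if_neg h2]
  have h3 : 3 ≤ y := by omega
  have h4 : 4 * ((y - 1) * (k - y)) ≤ (k - 1) ^ 2 := by nlinarith [sq_nonneg ((y - 1) - (k - y))]
  have h5 : y * (4 * ((y - 1) * (k - y))) ≤ y * (k - 1) ^ 2 := mul_le_mul_of_nonneg_left h4 h0
  nlinarith

theorem g_bound4 (y : ℤ) (h0 : 0 ≤ y) (hy : y ≤ 4) : g 4 y ≤ 64 * y := by
  interval_cases y <;> decide

/-- capping the value of a neighbour -/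
theorem g_cap3 (k : ℤ) (hk : 3 ≤ k) (y : ℤ) : g k y = g k (min y k) := by
  rcases le_or_gt y k with h | h
  · rw [min_eq_left h]
  · rw [min_eq_right h.le]
    unfold g K U
    rw [if_neg (not_lt.2 h.le), if_pos h, if_neg (lt_irrefl k), if_neg (lt_irrefl k),
      if_neg (by linarith : ¬ k = 0), if_neg (by linarith : ¬ k = 1),
      if_neg (by linarith : ¬ k = 2)]
    ring

theorem g_cap2 (y : ℤ) : g 2 y = g 2 (min y 3) := by
  rcases le_or_gt y 3 with h | h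
  · rw [min_eq_left h]
  · rw [min_eq_right h.le]
    unfold g K U
    rw [if_neg (by linarith : ¬ y < 2), if_pos (by linarith)]
    norm_num
    ring

theorem g_cap1 (y : ℤ) : g 1 y = g 1 (min y 2) := by
  rcases le_or_gt y 2 with h | h
  · rw [min_eq_left h]
  · rw [min_eq_right h.le]
    unfold g K U
    rw [if_neg (by linarith : ¬ y < 1), if_pos (by linarith)]
    norm_num

theorem dec3 : ∀ a b c d : Fin 4, g 3 a + g 3 b + g 3 c + g 3 d -
    4 * (((a : ℤ) + b + c + d) ^ 2 - ((a : ℤ) ^ 2 + b ^ 2 + c ^ 2 + d ^ 2)) ≤ 120 := by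
  decide

theorem dec2 : ∀ a b c : Fin 4, g 2 a + g 2 b + g 2 c -
    4 * (((a : ℤ) + b + c) ^ 2 - ((a : ℤ) ^ 2 + b ^ 2 + c ^ 2)) ≤ 48 := by
  decide

theorem dec1 : ∀ a b : Fin 3, g 1 a + g 1 b -
    4 * (((a : ℤ) + b) ^ 2 - ((a : ℤ) ^ 2 + b ^ 2)) ≤ 48 := by
  decide

end Pool.Agent.Helper842.Wye
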