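import Pool.Agent.Helper842_Wye.Defs

set_option autoImplicit false

namespace Pool.Agent.Helper842.Wye

open SimpleGraph Filter Topology

/-- `P(T)`, `S(T)`, `Y(T)`: the numbers of subgraphs of `T` isomorphic to the path, the star and the
Y-shaped tree on five vertices, as real numbers. -/
noncomputable def numP {V : Type} [Fintype V] (T : SimpleGraph V) : ℝ := T.copyCount pathFive

/-- the number of stars -/
noncomputable def numS {V : Type} [Fintype V] (T : SimpleGraph V) : ℝ := T.copyCount starFive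

/-- the number of Y-shaped trees -/
noncomputable def numY {V : Type} [Fintype V] (T : SimpleGraph V) : ℝ := T.copyCount wyeFive

/-- `Z(T) = P(T) + S(T) + Y(T)` -/
noncomputable def numZ {V : Type} [Fintype V] (T : SimpleGraph V) : ℝ := numP T + numS T + numY T

/-- The 5-profile `(P, S, Y) / Z` of `T`. -/
noncomputable def profile {V : Type} [Fintype V] (T : SimpleGraph V) : ℝ × ℝ × ℝ :=
  (numP T / numZ T, numS T / numZ T, numY T / numZ T)

/-- `Δ`: the limits of 5-profiles of trees whose numbers of vertices tend to infinity. -/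
def Delta : Set (ℝ × ℝ × ℝ) :=
  {p | ∃ (V : ℕ → Type) (_ : ∀ n, Fintype (V n)) (T : ∀ n, SimpleGraph (V n)),
    (∀ n, (T n).IsTree) ∧ Tendsto (fun n => Fintype.card (V n)) atTop atTop ∧
    Tendsto (fun n => profile (T n)) atTop (𝓝 p)}

/-- The limiting path and star densities. -/
def limitSet : Set (ℝ × ℝ) := {q | ∃ y : ℝ, (q.1, q.2, y) ∈ Delta}

/-- The limit point of the profiles of `d`-millipedes. -/
noncomputable def milli (d : ℕ) : ℝ × ℝ :=
  (((d : ℝ) + 1) ^ 2 / (((d + 2).choose 4 : ℝ) + ((d : ℝ) + 1) ^ 3),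
    ((d + 2).choose 4 : ℝ) / (((d + 2).choose 4 : ℝ) + ((d : ℝ) + 1) ^ 3))

/-- `C = conv ({(0,1)} ∪ {m_d : d ≥ 0})` -/
noncomputable def hullC : Set (ℝ × ℝ) := convexHull ℝ ({((0 : ℝ), (1 : ℝ))} ∪ Set.range milli)

end Pool.Agent.Helper842.Wye
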