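import Pool.Agent.Helper842_Wye.Family
import Pool.Agent.Helper842_Wye.Prof

set_option autoImplicit false

namespace Pool.Agent.Helper842.Wye

open SimpleGraph Filter Topology

theorem choose_four (d : ℕ) : 24 * ((d + 2).choose 4 : ℝ) =
    ((d : ℝ) + 2) * ((d : ℝ) + 1) * d * ((d : ℝ) - 1) := by
  induction d with
  | zero => norm_num [Nat.choose]
  | succ d ih =>
    have h1 : (d + 1 + 2).choose 4 = (d + 2).choose 3 + (d + 2).choose 4 := by
      exact Nat.choose_succ_succ (d + 2) 3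
    have h2 : 6 * ((d + 2).choose 3 : ℝ) = ((d : ℝ) + 2) * ((d : ℝ) + 1) * d := by
      clear ih h1
      induction d with
      | zero => norm_num [Nat.choose]
      | succ d ih =>
        have h1 : (d + 1 + 2).choose 3 = (d + 2).choose 2 + (d + 2).choose 3 := by
          exact Nat.choose_succ_succ (d + 2) 2
        have h3 : 2 * ((d + 2).choose 2 : ℝ) = ((d : ℝ) + 2) * ((d : ℝ) + 1) := by
          rw [Nat.cast_choose_two]
          push_cast
          ring
        rw [h1]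
        push_cast
        linarith
    rw [h1]
    push_cast
    linarith

theorem milli_mem (d : ℕ) : 1 ≤ 26 * (milli d).1 + 5 / 4 * (milli d).2 := by
  have h := choose_four d
  obtain ⟨c, hc⟩ : ∃ c : ℝ, c = ((d + 2).choose 4 : ℝ) := ⟨_, rfl⟩
  have hc0 : 0 ≤ c := by rw [hc]; positivity
  have hd : (0 : ℝ) ≤ d := Nat.cast_nonneg d
  unfold milli
  simp only
  rw [← hc] at h ⊢
  have hpos : 0 < c + ((d : ℝ) + 1) ^ 3 := by positivity
  rw [mul_div_assoc', mul_div_assoc', ← add_div, one_le_div hpos]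
  obtain ⟨x, hx⟩ : ∃ x : ℝ, x = (d : ℝ) := ⟨_, rfl⟩
  rw [← hx] at h hd ⊢
  -- 96 * (26 a^2 + c/4 - a^3) ≥ 0
  have h1 : 0 ≤ (x + 1) * ((x + 1) ^ 3 - 98 * (x + 1) ^ 2 + 2495 * (x + 1) + 2) := by
    refine mul_nonneg (by linarith) ?_
    nlinarith [mul_nonneg (by linarith : (0:ℝ) ≤ x + 1) (sq_nonneg (x + 1 - 49))]
  nlinarith

theorem hull_sub : hullC ⊆ {q : ℝ × ℝ | 1 ≤ 26 * q.1 + 5 / 4 * q.2} := by
  refine convexHull_min ?_ ?_
  · rintro q (hq | ⟨d, rfl⟩)
    · rw [Set.mem_singleton_iff] at hq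
      subst hq
      show (1 : ℝ) ≤ 26 * 0 + 5 / 4 * 1
      norm_num
    · exact milli_mem d
  · intro p hp q hq a b ha hb hab
    simp only [Set.mem_ofPred_eq, Prod.fst_add, Prod.snd_add, Prod.smul_fst, Prod.smul_snd,
      smul_eq_mul] at hp hq ⊢
    nlinarith [mul_le_mul_of_nonneg_left hp ha, mul_le_mul_of_nonneg_left hq hb]

theorem fam_ineq (n : ℕ) : 0 < numZ (TT n) ∧
    26 * numP (TT n) + 5 / 4 * numS (TT n) ≤ 19 / 20 * numZ (TT n) ∧ 0 ≤ numP (TT n) ∧
    0 ≤ numS (TT n) ∧ 0 ≤ numY (TT n) := by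
  have hP : numP (TT n) ≤ 122 * ((n : ℝ) + 1) := by
    unfold numP
    exact_mod_cast P_le n
  have hS : numS (TT n) = 10830 * ((n : ℝ) + 1) := by
    unfold numS
    exact_mod_cast S_eq n
  have hY : 7030 * ((n : ℝ) + 1) ≤ numY (TT n) := by
    unfold numY
    exact_mod_cast Y_ge n
  have hP0 : 0 ≤ numP (TT n) := Nat.cast_nonneg _
  have hn : (0 : ℝ) ≤ n := Nat.cast_nonneg n
  refine ⟨?_, ?_, hP0, ?_, ?_⟩
  · unfold numZ
    linarith
  · unfold numZ
    linarith
  · linarith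
  · linarith

/-- some point of the limit set lies outside the hull of the millipede points -/
theorem not_hull : ∃ q, q ∈ limitSet ∧ q ∉ hullC := by
  have hK : IsCompact (Set.Icc (0 : ℝ × ℝ × ℝ) 1) := isCompact_Icc
  have hmem : ∀ n, profile (TT n) ∈ Set.Icc (0 : ℝ × ℝ × ℝ) 1 := by
    intro n
    obtain ⟨hZ, -, hP, hS, hY⟩ := fam_ineq n
    have e : numZ (TT n) = numP (TT n) + numS (TT n) + numY (TT n) := rfl
    refine ⟨⟨?_, ?_, ?_⟩, ⟨?_, ?_, ?_⟩⟩
    · exact div_nonneg hP hZ.le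
    · exact div_nonneg hS hZ.le
    · exact div_nonneg hY hZ.le
    · exact (div_le_one hZ).2 (by linarith)
    · exact (div_le_one hZ).2 (by linarith)
    · exact (div_le_one hZ).2 (by linarith)
  obtain ⟨p, -, φ, hφ, hlim⟩ := hK.tendsto_subseq hmem
  refine ⟨(p.1, p.2.1), ⟨p.2.2, ?_⟩, ?_⟩
  · refine ⟨fun n => Fin (φ n + 1) × Bl, fun n => inferInstance, fun n => TT (φ n),
      fun n => TT_isTree (φ n), ?_, hlim⟩
    have h1 : ∀ n, n ≤ Fintype.card (Fin (φ n + 1) × Bl) := by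
      intro n
      have h2 := hφ.id_le n
      have h3 : Fintype.card (Fin (φ n + 1) × Bl) = (φ n + 1) * 41 := by
        simp [Fintype.card_prod, Fintype.card_sum]
      rw [h3]
      simp only [id] at h2
      omega
    exact tendsto_atTop_mono h1 tendsto_id
  · intro hq
    have h1 := hull_sub hq
    simp only [Set.mem_ofPred_eq] at h1
    have h2 : Tendsto (fun n => 26 * (profile (TT (φ n))).1 + 5 / 4 * (profile (TT (φ n))).2.1)
        atTop (𝓝 (26 * p.1 + 5 / 4 * p.2.1)) := by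
      have c1 : Continuous fun p : ℝ × ℝ × ℝ => 26 * p.1 + 5 / 4 * p.2.1 := by fun_prop
      exact (c1.tendsto p).comp hlim
    have h3 : ∀ n, 26 * (profile (TT (φ n))).1 + 5 / 4 * (profile (TT (φ n))).2.1 ≤ 19 / 20 := by
      intro n
      obtain ⟨hZ, h4, -⟩ := fam_ineq (φ n)
      show 26 * (numP (TT (φ n)) / numZ (TT (φ n))) + 5 / 4 * (numS (TT (φ n)) / numZ (TT (φ n))) ≤
        19 / 20
      rw [mul_div_assoc', mul_div_assoc', ← add_div, div_le_iff₀ hZ]
      exact h4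
    have h5 := le_of_tendsto h2 (Filter.Eventually.of_forall h3)
    linarith

end Pool.Agent.Helper842.Wye
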