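import Mathlib

set_option autoImplicit false

namespace Pool.Agent.Helper842.Wye

open SimpleGraph Finset

/-- The graph of a parent function. -/
def parGraph {V : Type*} (par : V → V) : SimpleGraph V := SimpleGraph.fromRel (fun u v => v = par u)

theorem parGraph_adj {V : Type*} (par : V → V) (u v : V) :
    (parGraph par).Adj u v ↔ u ≠ v ∧ (v = par u ∨ u = par v) := Iff.rfl

/-- A parent function which decreases a rank away from the root defines a tree. -/
theorem parGraph_isTree {V : Type*} [Fintype V] (par : V → V) (rk : V → ℕ) (r : V)
    (hr : par r = r) (h : ∀ v, v ≠ r → rk (par v) < rk v) : (parGraph par).IsTree := by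
  classical
  have hne : ∀ v, v ≠ r → par v ≠ v := fun v hv h' => by
    have := h v hv
    rw [h'] at this
    exact lt_irrefl _ this
  have hreach : ∀ k, ∀ v, rk v = k → (parGraph par).Reachable v r := by
    intro k
    induction k using Nat.strong_induction_on with
    | _ k ih =>
      intro v hv
      by_cases hvr : v = r
      · subst hvr
        rfl
      · have h1 : (parGraph par).Adj v (par v) :=
          (parGraph_adj par _ _).2 ⟨(hne v hvr).symm, Or.inl rfl⟩
        exact h1.reachable.trans (ih (rk (par v)) (by rw [← hv]; exact h v hvr) _ rfl)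
  haveI : Nonempty V := ⟨r⟩
  have hconn : (parGraph par).Connected := by
    rw [connected_iff]
    exact ⟨fun u v => (hreach _ u rfl).trans (hreach _ v rfl).symm, ⟨r⟩⟩
  rw [isTree_iff_connected_and_card]
  refine ⟨hconn, ?_⟩
  have hedge : (parGraph par).edgeFinset = ((univ : Finset V).erase r).image (fun v => s(v, par v)) := by
    ext e
    induction e using Sym2.ind with
    | _ u v =>
      rw [mem_edgeFinset, mem_edgeSet, parGraph_adj, Finset.mem_image]
      constructor
      · rintro ⟨huv, h1 | h1⟩
        · refine ⟨u, ?_, by rw [h1]⟩
          rw [Finset.mem_erase]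
          refine ⟨fun h2 => ?_, Finset.mem_univ _⟩
          subst h2
          exact huv (by rw [h1, hr])
        · refine ⟨v, ?_, by rw [h1]; exact Sym2.eq_swap⟩
          rw [Finset.mem_erase]
          refine ⟨fun h2 => ?_, Finset.mem_univ _⟩
          subst h2
          exact huv (by rw [h1, hr])
      · rintro ⟨w, hw, h1⟩
        rw [Finset.mem_erase] at hw
        rw [Sym2.eq_iff] at h1
        rcases h1 with ⟨rfl, rfl⟩ | ⟨rfl, rfl⟩
        · exact ⟨(hne w hw.1).symm, Or.inl rfl⟩
        · exact ⟨hne w hw.1, Or.inr rfl⟩
  have hcard : (parGraph par).edgeFinset.card + 1 = Fintype.card V := by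
    rw [hedge, Finset.card_image_of_injOn, Finset.card_erase_of_mem (Finset.mem_univ r),
      Finset.card_univ]
    · have := Fintype.card_pos (α := V)
      omega
    · intro u hu v hv huv
      simp only [Finset.coe_erase, Finset.coe_univ, Set.mem_diff, Set.mem_univ,
        Set.mem_singleton_iff, true_and] at hu hv
      rw [Sym2.eq_iff] at huv
      rcases huv with ⟨h1, -⟩ | ⟨h1, h2⟩
      · exact h1
      · exfalso
        have h3 := h u hu
        have h4 := h v hv
        rw [h2] at h3
        rw [← h1] at h4
        exact lt_asymm h3 h4
  rw [Nat.card_eq_fintype_card, Nat.card_eq_fintype_card, ← hcard, edgeFinset_card]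

end Pool.Agent.Helper842.Wye
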