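import Pool.Agent.Helper842_Wye.ParTree
import Pool.Agent.Helper842_Wye.Sums

set_option autoImplicit false

namespace Pool.Agent.Helper842.Wye

open SimpleGraph Finset

/-- parents in the caterpillar with inner degrees 3, 4, 4, 3 -/
def parS : Fin 12 → Fin 12 := ![0, 0, 1, 2, 0, 0, 1, 1, 2, 2, 3, 3]

/-- the caterpillar with inner degrees 3, 4, 4, 3 -/
def TS : SimpleGraph (Fin 12) := parGraph parS

instance : DecidableRel TS.Adj := fun a b => by
  unfold TS parGraph SimpleGraph.fromRel
  infer_instance

theorem TS_isTree : TS.IsTree := by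
  refine parGraph_isTree parS (fun v => v.1) 0 rfl ?_
  decide

/-- the degrees -/
def degS : Fin 12 → ℕ := ![3, 4, 4, 3, 1, 1, 1, 1, 1, 1, 1, 1]

theorem TS_deg : ∀ v, TS.degree v = degS v := by decide

set_option maxRecDepth 100000 in
theorem TS_counts : TS.copyCount pathFive = 12 ∧ TS.copyCount starFive = 2 ∧
    TS.copyCount wyeFive = 36 := by
  have h1 := path_count TS TS_isTree.2
  have h2 := star_count TS
  have h3 := wye_count TS TS_isTree.2
  simp only [TS_deg] at h1 h2 h3
  have e1 : ∑ v, ∑ a ∈ TS.neighborFinset v, ∑ b ∈ (TS.neighborFinset v).erase a,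
      (degS a - 1) * (degS b - 1) = 24 := by decide
  have e2 : ∑ v, degS v * (degS v - 1) * (degS v - 2) * (degS v - 3) = 48 := by decide
  have e3 : ∑ v, ∑ w ∈ TS.neighborFinset v, (degS v - 1) * (degS v - 2) * (degS w - 1) = 72 := by
    decide
  rw [e1] at h1
  rw [e2] at h2
  rw [e3] at h3
  omega

end Pool.Agent.Helper842.Wye
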